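import Pool.Agent.Q124.EM.Lem

/-!
# Covariances of the approximations
-/

set_option autoImplicit false

namespace Pool.Agent.Q124.EM

open MeasureTheory Set Filter Topology
open scoped ENNReal InnerProductSpace ContDiff
open Pool.Agent.W695.KH (EV VV)
open Pool.Agent.Q86.FIB
open Pool.Agent.Q86.EM

section alg

variable {κ : Type} [Fintype κ]

/-- mean with respect to the weight `w` -/
noncomputable def mean (w : Eu κ → ℝ) (g : Eu κ → ℝ) : ℝ := (∫ x, g x * w x) / ∫ x, w x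

/-- entries of the covariance matrix -/
noncomputable def cv (w : Eu κ → ℝ) (i k : κ) : ℝ :=
  mean w (fun x => x i * x k) - mean w (fun x => x i) * mean w (fun x => x k)

theorem inner_eq (θ x : Eu κ) : ⟪θ, x⟫_ℝ = ∑ i, θ i * x i := by
  rw [PiLp.inner_apply]
  refine Finset.sum_congr rfl fun i _ => ?_
  simp [mul_comm]

/-- the variance of a linear function -/
theorem var_lin {w : Eu κ → ℝ} (i1 : ∀ i, Integrable fun x : Eu κ => x i * w x)
    (i2 : ∀ i k, Integrable fun x : Eu κ => x i * x k * w x) (θ : Eu κ) :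
    mean w (fun x => ⟪θ, x⟫_ℝ ^ 2) - mean w (fun x => ⟪θ, x⟫_ℝ) ^ 2 =
      ∑ i, ∑ k, θ i * θ k * cv w i k := by
  have e1 : mean w (fun x => ⟪θ, x⟫_ℝ) = ∑ i, θ i * mean w (fun x => x i) := by
    unfold mean
    have h : ∀ x : Eu κ, ⟪θ, x⟫_ℝ * w x = ∑ i, θ i * (x i * w x) := by
      intro x
      rw [inner_eq, Finset.sum_mul]
      exact Finset.sum_congr rfl fun i _ => by ring
    simp_rw [h]
    rw [integral_finsetSum _ fun i _ => (i1 i).const_mul _, Finset.sum_div]
    refine Finset.sum_congr rfl fun i _ => ?_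
    rw [integral_const_mul]
    ring
  have e2 : mean w (fun x => ⟪θ, x⟫_ℝ ^ 2) =
      ∑ i, ∑ k, θ i * θ k * mean w (fun x => x i * x k) := by
    unfold mean
    have h : ∀ x : Eu κ, ⟪θ, x⟫_ℝ ^ 2 * w x = ∑ i, ∑ k, θ i * θ k * (x i * x k * w x) := by
      intro x
      rw [inner_eq, pow_two, Finset.sum_mul_sum, Finset.sum_mul]
      refine Finset.sum_congr rfl fun i _ => ?_
      rw [Finset.sum_mul]
      exact Finset.sum_congr rfl fun k _ => by ring
    simp_rw [h]
    rw [integral_finsetSum _ fun i _ => integrable_finsetSum _ fun k _ => (i2 i k).const_mul _,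
      Finset.sum_div]
    refine Finset.sum_congr rfl fun i _ => ?_
    rw [integral_finsetSum _ fun k _ => (i2 i k).const_mul _, Finset.sum_div]
    refine Finset.sum_congr rfl fun k _ => ?_
    rw [integral_const_mul]
    ring
  rw [e1, e2, pow_two, Finset.sum_mul_sum, ← Finset.sum_sub_distrib]
  refine Finset.sum_congr rfl fun i _ => ?_
  rw [← Finset.sum_sub_distrib]
  refine Finset.sum_congr rfl fun k _ => ?_
  unfold cv
  ring

theorem abs_le_norm (x : Eu κ) (i : κ) : |x i| ≤ ‖x‖ := by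
  have := PiLp.norm_apply_le x i
  rwa [Real.norm_eq_abs] at this

theorem b1 (x : Eu κ) (i : κ) : |x i| ≤ 1 * (1 + ‖x‖) ^ 1 := by
  have := abs_le_norm x i
  rw [one_mul, pow_one]
  linarith

theorem b2 (x : Eu κ) (i k : κ) : |x i * x k| ≤ 1 * (1 + ‖x‖) ^ 2 := by
  rw [abs_mul, one_mul, pow_two]
  have h1 := abs_le_norm x i
  have h2 := abs_le_norm x k
  exact mul_le_mul (by linarith) (by linarith) (abs_nonneg _) (by positivity)

theorem m1 (i : κ) : Measurable fun x : Eu κ => x i := by fun_prop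

theorem m2 (i k : κ) : Measurable fun x : Eu κ => x i * x k := by fun_prop

theorem cv_add (θ : Eu κ) (hθ : ‖θ‖ = 1) (w w' : Eu κ → ℝ) :
    ∑ i, ∑ k, θ i * θ k * cv w i k ≤ ∑ i, ∑ k, θ i * θ k * cv w' i k +
      ∑ i, ∑ k, |cv w i k - cv w' i k| := by
  rw [← Finset.sum_add_distrib]
  refine Finset.sum_le_sum fun i _ => ?_
  rw [← Finset.sum_add_distrib]
  refine Finset.sum_le_sum fun k _ => ?_
  have h1 := abs_le_norm θ i
  have h2 := abs_le_norm θ k
  rw [hθ] at h1 h2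
  have h3 : |θ i * θ k| ≤ 1 := by
    rw [abs_mul]
    exact mul_le_one₀ h1 (abs_nonneg _) h2
  have h4 : θ i * θ k * cv w i k - θ i * θ k * cv w' i k ≤ |cv w i k - cv w' i k| := by
    rw [← mul_sub]
    refine (le_abs_self _).trans ?_
    rw [abs_mul]
    exact mul_le_of_le_one_left (abs_nonneg _) h3
  linarith

theorem mean_ind {D : Set (Eu κ)} (hD : MeasurableSet D) (g : Eu κ → ℝ) :
    mean (D.indicator fun _ => (1 : ℝ)) g = EV D g := by
  unfold mean EV
  have h1 : ∀ x, g x * D.indicator (fun _ => (1 : ℝ)) x = D.indicator g x := by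
    intro x
    by_cases hx : x ∈ D
    · rw [indicator_of_mem hx, indicator_of_mem hx, mul_one]
    · rw [indicator_of_notMem hx, indicator_of_notMem hx, mul_zero]
  simp_rw [h1]
  rw [integral_indicator hD, integral_indicator hD, setIntegral_const, smul_eq_mul, mul_one]
  rfl

theorem ind_int {D : Set (Eu κ)} (hD : IsCompact D) {g : Eu κ → ℝ} (hg : Continuous g) :
    Integrable fun x => g x * D.indicator (fun _ => (1 : ℝ)) x := by
  have h1 : ∀ x, g x * D.indicator (fun _ => (1 : ℝ)) x = D.indicator g x := by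
    intro x
    by_cases hx : x ∈ D
    · rw [indicator_of_mem hx, indicator_of_mem hx, mul_one]
    · rw [indicator_of_notMem hx, indicator_of_notMem hx, mul_zero]
  simp_rw [h1]
  rw [integrable_indicator_iff hD.measurableSet]
  exact hg.continuousOn.integrableOn_compact hD

/-- the variances of linear functions, uniformly -/
theorem var_unif (h1 : S_LMB) (h2 : S_MOL) {D : Set (Eu κ)} (hD : CB D) {s : ℝ} (hs : CV D s)
    {ε : ℝ} (hε : 0 < ε) : ∃ A₀ : ℝ, 0 < A₀ ∧ ∀ A : ℝ, A₀ ≤ A → ∀ U : Eu κ → ℝ, Ap D A U →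
      ∀ θ : Eu κ, ‖θ‖ = 1 → mean (fun x => Real.exp (-U x)) (fun x => ⟪θ, x⟫_ℝ ^ 2) -
        mean (fun x => Real.exp (-U x)) (fun x => ⟪θ, x⟫_ℝ) ^ 2 ≤ s + ε := by
  by_contra hcon
  push Not at hcon
  have hpos : ∀ j : ℕ, (0 : ℝ) < j + 1 := fun j => by positivity
  choose A hA U hU θ hθ hne using fun j : ℕ => hcon (j + 1) (hpos j)
  have hA0 : ∀ j, 0 < A j := fun j => (hpos j).trans_le (hA j)
  have hAt : Tendsto A atTop atTop :=
    tendsto_atTop_mono (fun j => (by linarith [hA j] : (j : ℝ) ≤ A j))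
      tendsto_natCast_atTop_atTop
  have hV := vol_pos hD
  set w : ℕ → Eu κ → ℝ := fun j x => Real.exp (-U j x) with hw
  set w' : Eu κ → ℝ := D.indicator fun _ => (1 : ℝ) with hw'
  have hlim : ∀ (g : Eu κ → ℝ) (m : ℕ), Measurable g → (∀ x, |g x| ≤ 1 * (1 + ‖x‖) ^ m) →
      Tendsto (fun j => mean (w j) g) atTop (𝓝 (mean w' g)) := by
    intro g m hg hb
    rw [hw', mean_ind hD.cpt.measurableSet]
    have l1 := (h1 κ D hD.cpt (CB.ne hD) A U hAt hA0 hU g 1 m hg hb).2
    have l2 := (h1 κ D hD.cpt (CB.ne hD) A U hAt hA0 hU (fun _ => 1) 1 0 measurable_const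
      (fun x => by simp)).2
    simp only [one_mul] at l2
    rw [setIntegral_const, smul_eq_mul, mul_one] at l2
    exact l1.div l2 hV.ne'
  have hcv : ∀ i k, Tendsto (fun j => cv (w j) i k) atTop (𝓝 (cv w' i k)) := by
    intro i k
    exact (hlim _ 2 (m2 i k) fun x => b2 x i k).sub
      ((hlim _ 1 (m1 i) fun x => b1 x i).mul (hlim _ 1 (m1 k) fun x => b1 x k))
  have hsum : Tendsto (fun j => ∑ i, ∑ k, |cv (w j) i k - cv w' i k|) atTop (𝓝 0) := by
    have h3 : Tendsto (fun j => ∑ i, ∑ k, |cv (w j) i k - cv w' i k|) atTop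
        (𝓝 (∑ i : κ, ∑ k : κ, |cv w' i k - cv w' i k|)) :=
      tendsto_finsetSum _ fun i _ => tendsto_finsetSum _ fun k _ =>
        ((hcv i k).sub_const _).abs
    simpa using h3
  obtain ⟨j, hj⟩ := (hsum.eventually (Iio_mem_nhds hε)).exists
  have h4 := hne j
  have hi : ∀ (g : Eu κ → ℝ) (m : ℕ), Measurable g → (∀ x, |g x| ≤ 1 * (1 + ‖x‖) ^ m) →
      Integrable fun x => g x * w j x := fun g m hg hb =>
    int_one h1 h2 hD.cpt hD.cvx (CB.ne hD) (hA0 j) (hU j) hg hb
  have e1 := var_lin (w := w j) (fun i => hi _ 1 (m1 i) fun x => b1 x i)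
    (fun i k => hi _ 2 (m2 i k) fun x => b2 x i k) (θ j)
  have e2 := var_lin (w := w') (fun i => ind_int hD.cpt (by fun_prop))
    (fun i k => ind_int hD.cpt (by fun_prop)) (θ j)
  have h5 := cv_add (θ j) (hθ j) (w j) w'
  have h6 := hs (θ j)
  rw [hθ j, one_pow, mul_one] at h6
  unfold VV at h6
  rw [← mean_ind hD.cpt.measurableSet, ← mean_ind hD.cpt.measurableSet] at h6
  change s + ε < mean (w j) (fun x => ⟪θ j, x⟫_ℝ ^ 2) - mean (w j) (fun x => ⟪θ j, x⟫_ℝ) ^ 2 at h4
  have hj' : ∑ i, ∑ k, |cv (w j) i k - cv w' i k| < ε := hj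
  linarith

end alg

section sp

variable {n : ℕ}

theorem spl_fst (x : EK 1 n) (a : Fin 1) : (spl 1 n x).1 a = x (Sum.inl a) := rfl

theorem spl_snd (x : EK 1 n) (i : Fin n) : (spl 1 n x).2 i = x (Sum.inr i) := rfl

/-- the variance about the mean -/
theorem about {U : EK 1 n → ℝ} (hU : 0 < ∫ y, Real.exp (-U y)) {ℓ : EK 1 n → ℝ}
    (i1 : Integrable fun y => ℓ y * Real.exp (-U y))
    (i2 : Integrable fun y => ℓ y ^ 2 * Real.exp (-U y))
    (i0 : Integrable fun y => Real.exp (-U y)) {c : ℝ}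
    (hc : c = mean (fun x => Real.exp (-U x)) ℓ) :
    (∫ y, (ℓ y - c) ^ 2 * Real.exp (-U y)) / ∫ y, Real.exp (-U y) =
      mean (fun x => Real.exp (-U x)) (fun y => ℓ y ^ 2) -
        mean (fun x => Real.exp (-U x)) ℓ ^ 2 := by
  have h1 : ∫ y, (ℓ y - c) ^ 2 * Real.exp (-U y) = (∫ y, ℓ y ^ 2 * Real.exp (-U y)) -
      (2 * c) * (∫ y, ℓ y * Real.exp (-U y)) + c ^ 2 * ∫ y, Real.exp (-U y) := by
    have i21 : Integrable fun y => ℓ y ^ 2 * Real.exp (-U y) -
        2 * c * (ℓ y * Real.exp (-U y)) := i2.sub (i1.const_mul _)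
    rw [← integral_const_mul, ← integral_const_mul, ← integral_sub i2 (i1.const_mul _),
      ← integral_add i21 (i0.const_mul _)]
    refine integral_congr_ae (Eventually.of_forall fun y => ?_)
    simp only
    ring
  have h2 : ∫ y, ℓ y * Real.exp (-U y) = c * ∫ y, Real.exp (-U y) := by
    rw [hc]
    unfold mean
    rw [div_mul_cancel₀ _ hU.ne']
  rw [h1, h2, ← hc]
  unfold mean
  field_simp
  ring

theorem coa (h1 : S_LMB) (h2 : S_MOL) : S_COA := by
  intro n D hD s hs ε hε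
  obtain ⟨A₀, hA₀, H⟩ := var_unif h1 h2 hD hs hε
  refine ⟨A₀, hA₀, fun A hA U hU W hW => ?_⟩
  have hApos := hA₀.trans_le hA
  obtain ⟨hZ, hstd, hone, hF⟩ := std_nW h1 h2 hD hApos hU
  have hWn : W = nW U := hW
  rw [hWn]
  have hi : ∀ (g : EK 1 n → ℝ) (m : ℕ), Measurable g → (∀ x, |g x| ≤ 1 * (1 + ‖x‖) ^ m) →
      Integrable fun x => g x * Real.exp (-U x) := fun g m hg hb =>
    int_one h1 h2 hD.cpt hD.cvx (CB.ne hD) hApos hU hg hb
  have i0 : Integrable fun y => Real.exp (-U y) := by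
    have h3 := hi (fun _ => 1) 0 measurable_const (fun x => by simp)
    simpa using h3
  have key : ∀ θ : EK 1 n, ‖θ‖ = 1 → ∀ c : ℝ,
      c = mean (fun x => Real.exp (-U x)) (fun x => ⟪θ, x⟫_ℝ) →
      (∫ y, (⟪θ, y⟫_ℝ - c) ^ 2 * Real.exp (-U y)) / ∫ y, Real.exp (-U y) ≤ s + ε := by
    intro θ hθ c hc
    have hb : ∀ x : EK 1 n, |⟪θ, x⟫_ℝ| ≤ ‖x‖ := fun x => by
      have := abs_real_inner_le_norm θ x
      rwa [hθ, one_mul] at this
    rw [about hZ (hi _ 1 (by fun_prop) fun x => by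
        rw [one_mul, pow_one]; linarith [hb x])
      (hi _ 2 (by fun_prop) fun x => by
        rw [one_mul, abs_pow]
        exact pow_le_pow_left₀ (abs_nonneg _) (by linarith [hb x]) 2) i0 hc]
    exact H A hA U hU θ hθ
  refine ⟨hstd, hone, ?_, ?_⟩
  · refine ⟨fun _ => mean (fun x => Real.exp (-U x))
      (fun x => ⟪(EuclideanSpace.single (Sum.inl 0) 1 : EK 1 n), x⟫_ℝ), fun a => ?_⟩
    obtain ⟨c, hc⟩ : ∃ c, c = mean (fun x => Real.exp (-U x))
      (fun x => ⟪(EuclideanSpace.single (Sum.inl 0) 1 : EK 1 n), x⟫_ℝ) := ⟨_, rfl⟩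
    rw [← hc]
    have ha : a = 0 := Subsingleton.elim _ _
    subst ha
    have h3 := key (EuclideanSpace.single (Sum.inl 0) 1) (by simp) c hc
    refine le_trans (le_of_eq ?_) h3
    have hpb : PB (fun x : Sp 1 × Sp n => (x.1 0 - c) ^ 2) := by
      have h4 : Function.HasTemperateGrowth (fun x : Sp 1 × Sp n => x.1 0) :=
        ((ContinuousLinearMap.proj (R := ℝ) (φ := fun _ : Fin 1 => ℝ) 0).comp
          (ContinuousLinearMap.fst ℝ (Sp 1) (Sp n))).hasTemperateGrowth
      exact ((PB.of_htg h4).sub (PB.const c)).pow 2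
    have hcont : Continuous (fun x : Sp 1 × Sp n => (x.1 0 - c) ^ 2) := by fun_prop
    have h5 := hstd.fib_integral hpb hcont
    have h6 : ∀ t : Sp 1, fib (nW U) (fun x : Sp 1 × Sp n => (x.1 0 - c) ^ 2) t =
        (t 0 - c) ^ 2 * dens (nW U) t := by
      intro t
      rw [dens_eq, ← Std.fib_base (fun t : Sp 1 => (t 0 - c) ^ 2)]
      refine Std.fib_congr t fun z => ?_
      simp
    simp_rw [h6] at h5
    rw [← h5, hF (fun x => (x.1 0 - c) ^ 2)]
    congr 1
    refine integral_congr_ae (Eventually.of_forall fun y => ?_)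
    simp only
    rw [spl_fst, EuclideanSpace.inner_single_left]
    simp
  · intro θ hθ
    set θ' : EK 1 n := WithLp.toLp 2 (Sum.elim (fun _ => 0) θ) with hθ'
    have hn : ‖θ'‖ = 1 := by
      have h3 : ‖θ'‖ ^ 2 = 1 := by
        rw [EuclideanSpace.norm_sq_eq, Fintype.sum_sum_type, ← hθ]
        simp [hθ']
      nlinarith [norm_nonneg θ']
    obtain ⟨c, hc⟩ : ∃ c, c = mean (fun x => Real.exp (-U x)) (fun x => ⟪θ', x⟫_ℝ) := ⟨_, rfl⟩
    refine ⟨c, ?_⟩
    have h3 := key θ' hn c hc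
    refine le_trans (le_of_eq ?_) h3
    rw [hF (fun x => lin θ c x.2 ^ 2)]
    congr 1
    refine integral_congr_ae (Eventually.of_forall fun y => ?_)
    simp only
    congr 2
    unfold lin
    rw [inner_eq, Fintype.sum_sum_type]
    simp [hθ', spl_snd]

end sp

end Pool.Agent.Q124.EM
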