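import Pool.Agent.Q86.EM.Stm2

/-!
# Approximations of the uniform measure on a convex body: common lemmas
-/

set_option autoImplicit false

namespace Pool.Agent.Q124.EM

open MeasureTheory Set Filter Topology
open scoped ENNReal InnerProductSpace ContDiff
open Pool.Agent.W695.KH (EV VV)
open Pool.Agent.Q86.FIB
open Pool.Agent.Q86.EM

section gen

variable {κ : Type} [Fintype κ]

/-- a single approximation is the first term of a sequence -/
theorem int_one (h1 : S_LMB) (h2 : S_MOL) {D : Set (Eu κ)} (hD : IsCompact D) (hc : Convex ℝ D)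
    (hn : D.Nonempty) {A : ℝ} (hA : 0 < A) {U : Eu κ → ℝ} (hU : Ap D A U) {g : Eu κ → ℝ} {B : ℝ}
    {m : ℕ} (hg : Measurable g) (hb : ∀ x, |g x| ≤ B * (1 + ‖x‖) ^ m) :
    Integrable fun x => g x * Real.exp (-U x) := by
  have hpos : ∀ j : ℕ, 0 < A + j := fun j => by positivity
  choose V hV using fun j : ℕ => h2 κ D hD hc hn (A + j) (hpos j)
  have h3 := (h1 κ D hD hn (fun j => A + j) (fun j => if j = 0 then U else V j)
    (tendsto_atTop_add_const_left _ _ tendsto_natCast_atTop_atTop) hpos (fun j => by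
      rcases Nat.eq_zero_or_pos j with hj | hj
      · subst hj
        simpa using hU
      · rw [if_neg hj.ne']
        exact hV j) g B m hg hb).1 0
  simpa using h3

/-- uniform convergence -/
theorem unif (h1 : S_LMB) {D : Set (Eu κ)} (hD : IsCompact D) (hn : D.Nonempty)
    {g : Eu κ → ℝ} {B : ℝ} {m : ℕ} (hg : Measurable g)
    (hb : ∀ x, |g x| ≤ B * (1 + ‖x‖) ^ m) {ε : ℝ} (hε : 0 < ε) :
    ∃ A₀ : ℝ, 0 < A₀ ∧ ∀ A : ℝ, A₀ ≤ A → ∀ U : Eu κ → ℝ, Ap D A U →
      |(∫ x, g x * Real.exp (-U x)) - ∫ x in D, g x| ≤ ε := by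
  by_contra hcon
  push Not at hcon
  have hpos : ∀ j : ℕ, (0 : ℝ) < j + 1 := fun j => by positivity
  choose A hA U hU hne using fun j : ℕ => hcon (j + 1) (hpos j)
  have hAt : Tendsto A atTop atTop :=
    tendsto_atTop_mono (fun j => (by linarith [hA j] : (j : ℝ) ≤ A j))
      tendsto_natCast_atTop_atTop
  have h3 := (h1 κ D hD hn A U hAt (fun j => (hpos j).trans_le (hA j)) hU g B m hg hb).2
  have h4 := (Metric.tendsto_nhds.1 h3 ε hε).exists
  obtain ⟨j, hj⟩ := h4
  rw [Real.dist_eq] at hj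
  exact absurd (hne j) (not_lt.2 hj.le)

theorem vol_pos {D : Set (Eu κ)} (hD : CB D) : 0 < (volume D).toReal := by
  refine ENNReal.toReal_pos ?_ hD.cpt.measure_lt_top.ne
  refine (lt_of_lt_of_le ?_ (measure_mono interior_subset)).ne'
  exact isOpen_interior.measure_pos _ hD.int

theorem CB.ne {D : Set (Eu κ)} (hD : CB D) : D.Nonempty := hD.int.mono interior_subset

end gen

section sp

variable {n : ℕ}

theorem spl_integrable_iff (F : Sp 1 × Sp n → ℝ) :
    Integrable (fun x : EK 1 n => F (spl 1 n x)) ↔ Integrable F (vol 1 n) :=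
  (spl_mp 1 n).integrable_comp_emb (spl 1 n).toHomeomorph.measurableEmbedding

/-- the normalised potential -/
noncomputable def nW (U : EK 1 n → ℝ) : Sp 1 × Sp n → ℝ :=
  fun x => onSp U x + Real.log (∫ y, Real.exp (-U y))

theorem onSp_spl (U : EK 1 n → ℝ) (x : EK 1 n) : onSp U (spl 1 n x) = U x := by
  simp [onSp]

/-- the facts on one approximation -/
theorem std_nW (h1 : S_LMB) (h2 : S_MOL) {D : Set (EK 1 n)} (hD : CB D) {A : ℝ} (hA : 0 < A)
    {U : EK 1 n → ℝ} (hU : Ap D A U) : 0 < ∫ y, Real.exp (-U y) ∧ Std (nW U) ∧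
      ∫ t, dens (nW U) t = 1 ∧ ∀ F : Sp 1 × Sp n → ℝ, ∫ x, F x * Real.exp (-nW U x) ∂(vol 1 n) =
        (∫ y, F (spl 1 n y) * Real.exp (-U y)) / ∫ y, Real.exp (-U y) := by
  have i1 : Integrable fun x => Real.exp (-U x) := by
    have h3 := int_one h1 h2 hD.cpt hD.cvx (CB.ne hD) hA hU (g := fun _ => 1) (B := 1) (m := 0)
      measurable_const (fun x => by simp)
    simpa using h3
  have hZ : 0 < ∫ y, Real.exp (-U y) := by
    rw [integral_pos_iff_support_of_nonneg (fun z => (Real.exp_pos _).le) i1]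
    have h2 : Function.support (fun z => Real.exp (-U z)) = univ := by
      ext z
      simp [(Real.exp_pos _).ne']
    rw [h2]
    exact isOpen_univ.measure_pos _ ⟨0, mem_univ _⟩
  have hexp : ∀ y, Real.exp (-nW U (spl 1 n y)) =
      Real.exp (-U y) / ∫ y, Real.exp (-U y) := by
    intro y
    unfold nW
    rw [onSp_spl, neg_add, Real.exp_add, Real.exp_neg (Real.log _), Real.exp_log hZ]
    rfl
  have hF : ∀ F : Sp 1 × Sp n → ℝ, ∫ x, F x * Real.exp (-nW U x) ∂(vol 1 n) =
        (∫ y, F (spl 1 n y) * Real.exp (-U y)) / ∫ y, Real.exp (-U y) := by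
    intro F
    rw [← spl_int (fun x => F x * Real.exp (-nW U x)), ← integral_div]
    refine integral_congr_ae (Eventually.of_forall fun y => ?_)
    simp only
    rw [hexp]
    ring
  have hstd : Std (nW U) := by
    refine ⟨?_, ?_, ?_⟩
    · have h3 : Function.HasTemperateGrowth (onSp U) :=
        hU.htg.comp ((spl 1 n).symm : Sp 1 × Sp n →L[ℝ] EK 1 n).hasTemperateGrowth
      exact h3.add (Function.HasTemperateGrowth.const _)
    · have h3 : ConvexOn ℝ univ (onSp U) := by
        have h4 := hU.conv.comp_linearMap ((spl 1 n).symm : Sp 1 × Sp n →L[ℝ] EK 1 n).toLinearMap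
        exact h4
      exact h3.add (convexOn_const _ convex_univ)
    · rw [← spl_integrable_iff (fun x => Real.exp (-nW U x))]
      simp_rw [hexp]
      exact i1.div_const _
  refine ⟨hZ, hstd, ?_, hF⟩
  rw [hstd.tot_dens]
  have h3 := hF (fun _ => 1)
  simp_rw [one_mul] at h3
  rw [h3, div_self hZ.ne']

theorem tc_eq (x : EK 1 n) : tc x = (spl 1 n x).1 0 := rfl

theorem tc_cont : Continuous (tc : EK 1 n → ℝ) := by
  unfold tc
  exact (continuous_apply 0).comp (continuous_fst.comp (spl 1 n).continuous)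

theorem oo_zero' (t : ℝ) : oo t 0 = t := rfl

/-- integrals over half spaces -/
theorem G_nW {W : Sp 1 × Sp n → ℝ} (hW : Std W) {J : Set ℝ} (hJ : MeasurableSet J) :
    ∫ u in J, dd W u = ∫ x : Sp 1 × Sp n, J.indicator (fun _ => (1 : ℝ)) (x.1 0) *
      Real.exp (-W x) ∂(vol 1 n) := by
  have hm : Measurable (fun x : Sp 1 × Sp n => J.indicator (fun _ => (1 : ℝ)) (x.1 0)) := by
    refine (measurable_const.indicator hJ).comp ?_
    fun_prop
  have hi : Integrable (fun x : Sp 1 × Sp n => J.indicator (fun _ => (1 : ℝ)) (x.1 0) *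
      Real.exp (-W x)) (vol 1 n) := by
    refine hW.int.bdd_mul (c := 1) hm.aestronglyMeasurable (Eventually.of_forall fun x => ?_)
    by_cases hx : x.1 0 ∈ J
    · rw [indicator_of_mem hx]; simp
    · rw [indicator_of_notMem hx]; simp
  rw [integral_prod _ hi, ← integral_indicator hJ]
  rw [oo_int]
  refine integral_congr_ae (Eventually.of_forall fun u => ?_)
  simp only [oo_zero']
  rw [integral_const_mul]
  by_cases hx : u ∈ J
  · rw [indicator_of_mem hx, indicator_of_mem hx, one_mul]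
    rfl
  · rw [indicator_of_notMem hx, indicator_of_notMem hx, zero_mul]

end sp

end Pool.Agent.Q124.EM
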