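import Pool.Agent.Q124.EM.Lem

/-!
# Tails of the first coordinate
-/

set_option autoImplicit false

namespace Pool.Agent.Q124.EM

open MeasureTheory Set Filter Topology
open scoped ENNReal InnerProductSpace ContDiff
open Pool.Agent.W695.KH (EV VV)
open Pool.Agent.Q86.FIB
open Pool.Agent.Q86.EM

variable {n : ℕ}

/-- the hyperplanes are null sets -/
theorem null_tc (c : ℝ) : volume {x : EK 1 n | tc x = c} = 0 := by
  have h1 : {x : EK 1 n | tc x = c} = (spl 1 n) ⁻¹' ({oo c} ×ˢ univ) := by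
    ext x
    simp only [mem_ofPred_eq, mem_preimage, mem_prod, mem_singleton_iff, mem_univ, and_true]
    constructor
    · intro h
      rw [← oo_zero ((spl 1 n) x).1, ← tc_eq, h]
    · intro h
      rw [tc_eq, h]
      rfl
  rw [h1, (spl_mp 1 n).measure_preimage ((measurableSet_singleton _).prod
    MeasurableSet.univ).nullMeasurableSet, Measure.prod_prod]
  have h2 : volume {oo c} = 0 := measure_singleton _
  rw [h2, zero_mul]

/-- a thin slab -/
theorem slab {D : Set (EK 1 n)} (hD : IsCompact D) {h : EK 1 n → ℝ} (hh : Continuous h)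
    (hz : ∀ c, volume {x | h x = c} = 0) {p q : EK 1 n} (hq : q ∈ D) (hpq : h q < h p) {ε : ℝ}
    (hε : 0 < ε) : ∃ a, a < h p ∧ (∃ x ∈ D, h x < a) ∧
      (volume (D ∩ {x | h x ≤ a})).toReal ≤ ε := by
  obtain ⟨x₀, hx₀, hmin⟩ := hD.exists_isMinOn ⟨q, hq⟩ hh.continuousOn
  have hm : h x₀ < h p := lt_of_le_of_lt (hmin hq) hpq
  set δ := h p - h x₀ with hδ
  have hδ0 : 0 < δ := by linarith
  set a : ℕ → ℝ := fun j => h x₀ + δ / (j + 2) with ha
  have hanti : Antitone a := by
    intro i j hij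
    have h3 : (i : ℝ) ≤ j := by exact_mod_cast hij
    have h4 : (0 : ℝ) < i + 2 := by positivity
    simp only [ha]
    have h5 : δ / (j + 2) ≤ δ / (i + 2) := div_le_div_of_nonneg_left hδ0.le h4 (by linarith)
    linarith
  have hlim : Tendsto a atTop (𝓝 (h x₀)) := by
    have h3 : Tendsto (fun j : ℕ => δ / ((j : ℝ) + 2)) atTop (𝓝 0) :=
      tendsto_const_nhds.div_atTop (tendsto_atTop_add_const_right _ _
        tendsto_natCast_atTop_atTop)
    simpa using h3.const_add (h x₀)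
  have hms : ∀ j, NullMeasurableSet (D ∩ {x | h x ≤ a j}) := fun j =>
    (hD.measurableSet.inter (measurableSet_le hh.measurable measurable_const)).nullMeasurableSet
  have hsa : Antitone (fun j => D ∩ {x | h x ≤ a j}) := fun i j hij x hx =>
    ⟨hx.1, le_trans (show h x ≤ a j from hx.2) (hanti hij)⟩
  have hfin : ∃ i, volume (D ∩ {x | h x ≤ a i}) ≠ ⊤ :=
    ⟨0, ((measure_mono inter_subset_left).trans_lt hD.measure_lt_top).ne⟩
  have h3 := tendsto_measure_iInter_atTop hms hsa hfin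
  have h4 : volume (⋂ j, D ∩ {x | h x ≤ a j}) = 0 := by
    refine measure_mono_null ?_ (hz (h x₀))
    intro x hx
    rw [mem_iInter] at hx
    have h5 : h x ≤ h x₀ := ge_of_tendsto' hlim fun j => (hx j).2
    exact le_antisymm h5 (hmin (hx 0).1)
  rw [h4] at h3
  have h6 := (ENNReal.tendsto_toReal ENNReal.zero_ne_top).comp h3
  rw [ENNReal.toReal_zero] at h6
  obtain ⟨j, hj⟩ := (h6.eventually (Iio_mem_nhds hε)).exists
  refine ⟨a j, ?_, ⟨x₀, hx₀, ?_⟩, le_of_lt hj⟩
  · simp only [ha]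
    have h7 : δ / (j + 2) < δ := by
      rw [div_lt_iff₀ (by positivity)]
      have : (0 : ℝ) ≤ j := Nat.cast_nonneg j
      nlinarith
    linarith
  · simp only [ha]
    have h7 : 0 < δ / ((j : ℝ) + 2) := by positivity
    linarith

/-- the mass of a half space -/
theorem half (h1 : S_LMB) (h2 : S_MOL) {D : Set (EK 1 n)} (hD : CB D) {J : Set ℝ}
    (hJ : MeasurableSet J) {τ : ℝ} (hτ : 0 < τ)
    (hv : (volume (D ∩ {x | tc x ∈ J})).toReal ≤ τ / 2 * (volume D).toReal) :
    ∃ A₀ : ℝ, 0 < A₀ ∧ ∀ A : ℝ, A₀ ≤ A → ∀ U : EK 1 n → ℝ, Ap D A U →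
      ∫ u in J, dd (nW U) u ≤ τ := by
  have hV := vol_pos hD
  set V := (volume D).toReal with hVd
  set ε := τ * V / (2 * (1 + τ)) with hε
  have hε0 : 0 < ε := by positivity
  have hgm : Measurable (fun x : EK 1 n => J.indicator (fun _ => (1 : ℝ)) (tc x)) :=
    (measurable_const.indicator hJ).comp tc_cont.measurable
  obtain ⟨A₁, hA₁, H1⟩ := unif h1 hD.cpt (CB.ne hD) (g := fun _ => 1) (B := 1) (m := 0)
    measurable_const (fun x => by simp) hε0
  obtain ⟨A₂, hA₂, H2⟩ := unif h1 hD.cpt (CB.ne hD)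
    (g := fun x : EK 1 n => J.indicator (fun _ => (1 : ℝ)) (tc x)) (B := 1) (m := 0)
    hgm (fun x => by
      by_cases hx : tc x ∈ J
      · rw [indicator_of_mem hx]; simp
      · rw [indicator_of_notMem hx]; simp) hε0
  refine ⟨max A₁ A₂, lt_max_of_lt_left hA₁, fun A hA U hU => ?_⟩
  have hA1 := (le_max_left _ _).trans hA
  have hA2 := (le_max_right _ _).trans hA
  obtain ⟨hZ, hstd, -, hF⟩ := std_nW h1 h2 hD (hA₁.trans_le hA1) hU
  have e1 := H1 A hA1 U hU
  have e2 := H2 A hA2 U hU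
  simp only [one_mul] at e1
  have e3 : ∫ x in D, (1 : ℝ) = V := by
    rw [setIntegral_const, smul_eq_mul, mul_one]
    rfl
  have e4 : ∫ x in D, J.indicator (fun _ => (1 : ℝ)) (tc x) =
      (volume (D ∩ {x | tc x ∈ J})).toReal := by
    have h5 : ∀ x : EK 1 n, J.indicator (fun _ => (1 : ℝ)) (tc x) =
        {x | tc x ∈ J}.indicator (fun _ => (1 : ℝ)) x := by
      intro x
      by_cases hx : tc x ∈ J
      · rw [indicator_of_mem hx, indicator_of_mem (show x ∈ {x | tc x ∈ J} from hx)]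
      · rw [indicator_of_notMem hx, indicator_of_notMem (show x ∉ {x | tc x ∈ J} from hx)]
    simp_rw [h5]
    have hmJ : MeasurableSet {x : EK 1 n | tc x ∈ J} := tc_cont.measurable hJ
    rw [setIntegral_indicator hmJ, setIntegral_const, smul_eq_mul, mul_one]
    rfl
  rw [e3] at e1
  rw [e4] at e2
  rw [G_nW hstd hJ, hF (fun x => J.indicator (fun _ => (1 : ℝ)) (x.1 0))]
  rw [div_le_iff₀ hZ]
  have e5 := (abs_le.1 e1).1
  have e6 := (abs_le.1 e2).2
  have e7 : ε * (1 + τ) = τ * V / 2 := by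
    rw [hε]
    field_simp
  have e8 : ∫ y : EK 1 n, J.indicator (fun _ => (1 : ℝ)) ((spl 1 n y).1 0) * Real.exp (-U y) =
      ∫ y : EK 1 n, J.indicator (fun _ => (1 : ℝ)) (tc y) * Real.exp (-U y) := rfl
  rw [e8]
  nlinarith

/-- there are points of the body on both sides -/
theorem sides {D : Set (EK 1 n)} (hD : CB D) : ∃ p ∈ D, (∃ q ∈ D, tc q < tc p) ∧
    ∃ q ∈ D, tc p < tc q := by
  obtain ⟨p, hp⟩ := hD.int
  have hpD : p ∈ D := interior_subset hp
  set e : EK 1 n := EuclideanSpace.single (Sum.inl 0) 1 with he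
  have h1 : Continuous fun s : ℝ => p + s • e := by fun_prop
  have h2 : Tendsto (fun s : ℝ => p + s • e) (𝓝 0) (𝓝 p) := by
    have := h1.tendsto 0
    simpa using this
  have h3 : ∀ᶠ s in 𝓝 (0 : ℝ), p + s • e ∈ D := h2.eventually (mem_interior_iff_mem_nhds.1 hp)
  have h4 : ∀ s : ℝ, tc (p + s • e) = tc p + s := by
    intro s
    rw [tc_eq, tc_eq, map_add, map_smul, he, spl_single_inl]
    simp [tv, sv]
  obtain ⟨δ, hδ, h5⟩ := Metric.eventually_nhds_iff.1 h3
  refine ⟨p, hpD, ⟨p + (-(δ / 2)) • e, h5 ?_, ?_⟩, ⟨p + (δ / 2) • e, h5 ?_, ?_⟩⟩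
  · rw [Real.dist_eq, sub_zero, abs_neg, abs_of_pos (by positivity)]
    linarith
  · rw [h4]
    linarith
  · rw [Real.dist_eq, sub_zero, abs_of_pos (by positivity)]
    linarith
  · rw [h4]
    linarith

theorem tlb (h1 : S_LMB) (h2 : S_MOL) : S_TLB := by
  intro n D hD τ hτ
  obtain ⟨p, -, ⟨q, hq, hqp⟩, ⟨q', hq', hpq'⟩⟩ := sides hD
  have hV := vol_pos hD
  have hε : 0 < τ / 2 * (volume D).toReal := by positivity
  obtain ⟨a, hap, hax, hav⟩ := slab hD.cpt tc_cont null_tc (p := p) hq hqp hε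
  obtain ⟨b, hbp, hbx, hbv⟩ := slab hD.cpt (h := fun x => -tc x) tc_cont.neg (fun c => by
    have h3 : {x : EK 1 n | -tc x = c} = {x | tc x = -c} := by
      ext x
      simp only [mem_ofPred_eq]
      constructor <;> intro h <;> linarith
    rw [h3]
    exact null_tc _) (p := p) hq' (neg_lt_neg hpq') hε
  obtain ⟨A₁, hA₁, H1⟩ := half h1 h2 hD (J := Iic a) measurableSet_Iic hτ (by
    exact hav)
  obtain ⟨A₂, hA₂, H2⟩ := half h1 h2 hD (J := Ioi (-b)) measurableSet_Ioi hτ (by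
    refine le_trans ?_ hbv
    refine ENNReal.toReal_mono ?_ (measure_mono ?_)
    · exact ((measure_mono inter_subset_left).trans_lt hD.cpt.measure_lt_top).ne
    · intro x hx
      refine ⟨hx.1, ?_⟩
      have h3 : -b < tc x := hx.2
      change -tc x ≤ b
      linarith)
  obtain ⟨x₁, hx₁, hx₁'⟩ := hbx
  refine ⟨a, -b, by linarith, hax, ⟨x₁, hx₁, by linarith⟩, max A₁ A₂, lt_max_of_lt_left hA₁,
    fun A hA U hU u hu => ?_⟩
  have hA1 := (le_max_left _ _).trans hA
  have hA2 := (le_max_right _ _).trans hA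
  obtain ⟨hZ, hstd, hone, -⟩ := std_nW h1 h2 hD (hA₁.trans_le hA1) hU
  have hld := hstd.ld hone
  change mn (nW U) u ≤ τ
  unfold mn
  rcases lt_or_ge u a with hua | hua
  · refine (min_le_left _ _).trans (le_trans ?_ (H1 A hA1 U hU))
    exact setIntegral_mono_set hld.int.integrableOn
      (Eventually.of_forall fun t => (hld.pos t).le) (Iic_subset_Iic.2 hua.le).eventuallyLE
  · have hub : -b < u := by
      by_contra hcon
      exact hu ⟨hua, not_lt.1 hcon⟩
    refine (min_le_right _ _).trans (le_trans ?_ (H2 A hA2 U hU))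
    exact setIntegral_mono_set hld.int.integrableOn
      (Eventually.of_forall fun t => (hld.pos t).le) (Ioi_subset_Ioi hub.le).eventuallyLE

end Pool.Agent.Q124.EM
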